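import Mathlib
import Pool.Agent.R269.Comb
import Pool.Agent.R269.Elton

/-!
# Non-containment of `c₀` implies property (Σ) for combinatorial spaces
-/

set_option autoImplicit false

open Filter Topology
open scoped ENNReal

namespace Pool.Agent.Results.MP_441f99_an.NoC0ImpliesSigma

open Pool.Agent.R269.Comb Pool.Agent.R269.Elton

/-- An `F`-supported normalized block basic sequence: finitely supported vectors `x n` of norm one
whose supports are members of `F`, with `max supp (x n) < min supp (x (n + 1))`. -/
structure IsSupportedBlock (F : HereditaryCover) (x : ℕ → ℕ →₀ ℝ) : Prop where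
  support_mem : ∀ n, (x n).support ∈ F.sets
  norm_eq : ∀ n, famNorm F (x n) = 1
  block : ∀ n, ∀ i ∈ (x n).support, ∀ j ∈ (x (n + 1)).support, i < j

/-- `(¬ c₀)`: for every `F`-supported normalized block basic sequence `x`,
`sup_{A ∈ closure F} ∑ n, ‖P_A (x n)‖_F = ∞`. -/
def NotC0 (F : HereditaryCover) : Prop :=
  ∀ x : ℕ → ℕ →₀ ℝ, IsSupportedBlock F x →
    ⨆ A ∈ F.closure, ∑' n, famNorm F (proj A (x n)) = ⊤

/-- The `ℓ₁`-norm of a finitely supported vector, restricted to `A`. -/
noncomputable def l1Norm (A : Set ℕ) (y : ℕ →₀ ℝ) : ℝ≥0∞ :=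
  ∑ i ∈ y.support, ENNReal.ofReal |proj A y i|

/-- `(Σ)`: for every `F`-supported normalized block basic sequence `x` there is a single set `A` in
the closure of `F` with `∑ n, ‖P_A (x n)‖₁ = ∞`. -/
def SigmaProp (F : HereditaryCover) : Prop :=
  ∀ x : ℕ → ℕ →₀ ℝ, IsSupportedBlock F x → ∃ A ∈ F.closure, ∑' n, l1Norm A (x n) = ⊤

variable (F : HereditaryCover)

/-- the closure of the family as a compact space of `0`-`1`-sequences -/
def KF : Type := {f : ℕ → Bool // {n | f n = true} ∈ F.closure}

instance : TopologicalSpace (KF F) := inferInstanceAs (TopologicalSpace {f : ℕ → Bool // _})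
instance : T2Space (KF F) := inferInstanceAs (T2Space {f : ℕ → Bool // _})

instance : CompactSpace (KF F) := by
  refine isCompact_iff_compactSpace.1 (IsClosed.isCompact ?_)
  have : {f : ℕ → Bool | {n | f n = true} ∈ F.closure} =
      ⋂ (B : Finset ℕ) (_ : B ∉ F.sets), {f : ℕ → Bool | ∃ i ∈ B, f i = false} := by
    ext f
    simp only [Set.mem_iInter]
    constructor
    · intro h B hB
      by_contra hc
      have hc' : ∀ i ∈ B, f i ≠ false := fun i hi h => hc ⟨i, hi, h⟩
      exact hB (h B fun i hi => Bool.ne_false_iff.1 (hc' i (Finset.mem_coe.1 hi)))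
    · intro h B hB
      by_contra hc
      obtain ⟨i, hi, hf⟩ := h B hc
      have : f i = true := hB (Finset.mem_coe.2 hi)
      rw [this] at hf
      exact absurd hf (by decide)
  change IsClosed {f : ℕ → Bool | {n | f n = true} ∈ F.closure}
  rw [this]
  refine isClosed_iInter fun B => isClosed_iInter fun _ => ?_
  have h2 : {f : ℕ → Bool | ∃ i ∈ B, f i = false} = ⋃ i ∈ B, {f : ℕ → Bool | f i = false} := by
    ext f
    simp
  rw [h2]
  refine Set.Finite.isClosed_biUnion (Finset.finite_toSet B) fun i _ => ?_
  exact isClosed_eq (continuous_apply i) continuous_const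

variable {F}

/-- a set of the closure as a point of the compact space -/
noncomputable def pt {A : Set ℕ} (hA : A ∈ F.closure) : KF F := by
  classical
  exact ⟨fun n => decide (n ∈ A), by
    have : {n | decide (n ∈ A) = true} = A := by ext n; simp
    rw [this]; exact hA⟩

theorem pt_iff {A : Set ℕ} (hA : A ∈ F.closure) (n : ℕ) : (pt hA).1 n = true ↔ n ∈ A := by
  classical
  unfold pt
  simp

/-- the set belonging to a point -/
def setOf (t : KF F) : Set ℕ := {n | t.1 n = true}

theorem setOf_mem (t : KF F) : setOf t ∈ F.closure := t.2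

/-- the function `A ↦ ‖P_A y‖₁` -/
noncomputable def phi (y : ℕ →₀ ℝ) : C(KF F, ℝ) where
  toFun t := ∑ i ∈ y.support, if t.1 i = true then |y i| else 0
  continuous_toFun := by
    refine continuous_finsetSum _ fun i _ => ?_
    have h1 : Continuous fun t : KF F => t.1 i :=
      (continuous_apply i).comp continuous_subtype_val
    exact (continuous_of_discreteTopology (f := fun b : Bool => if b = true then |y i| else 0)).comp
      h1

theorem phi_apply (y : ℕ →₀ ℝ) (t : KF F) :
    phi y t = ∑ i ∈ y.support, if t.1 i = true then |y i| else 0 := rfl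

theorem phi_nonneg (y : ℕ →₀ ℝ) (t : KF F) : 0 ≤ phi y t := by
  rw [phi_apply]
  refine Finset.sum_nonneg fun i _ => ?_
  split_ifs
  · exact abs_nonneg _
  · exact le_rfl

theorem ofReal_phi (y : ℕ →₀ ℝ) {A : Set ℕ} (hA : A ∈ F.closure) :
    ENNReal.ofReal (phi y (pt hA)) = l1Norm A y := by
  rw [phi_apply, ENNReal.ofReal_sum_of_nonneg]
  · refine Finset.sum_congr rfl fun i _ => ?_
    congr 1
    unfold proj
    by_cases h : i ∈ A
    · rw [if_pos ((pt_iff hA i).2 h), Set.indicator_of_mem h]
    · rw [if_neg (fun h' => h ((pt_iff hA i).1 h')), Set.indicator_of_notMem h, abs_zero]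
  · intro i _
    split_ifs
    · exact abs_nonneg _
    · exact le_rfl

theorem mem_closure_of_mem {B : Finset ℕ} (hB : B ∈ F.sets) : (B : Set ℕ) ∈ F.closure :=
  fun C hC => F.hereditary B hB C (Finset.coe_subset.1 hC)

/-- for a vector supported by a member of the family the norm is the `ℓ₁`-norm -/
theorem famNorm_eq {y : ℕ →₀ ℝ} (hy : y.support ∈ F.sets) :
    famNorm F y = ENNReal.ofReal (∑ i ∈ y.support, |y i|) := by
  refine le_antisymm (famNorm_le F fun A _ => ENNReal.ofReal_le_ofReal ?_) (le_famNorm F y hy)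
  calc ∑ k ∈ A, |y k| = ∑ k ∈ A.filter (· ∈ y.support), |y k| := by
        rw [Finset.sum_filter]
        refine Finset.sum_congr rfl fun k _ => ?_
        split_ifs with h
        · rfl
        · rw [Finsupp.notMem_support_iff.1 h, abs_zero]
    _ ≤ ∑ k ∈ y.support, |y k| :=
        Finset.sum_le_sum_of_subset_of_nonneg (fun k hk => (Finset.mem_filter.1 hk).2)
          fun _ _ _ => abs_nonneg _

theorem phi_norm {y : ℕ →₀ ℝ} (hy : y.support ∈ F.sets) (h1 : famNorm F y = 1) :
    ‖(phi y : C(KF F, ℝ))‖ = 1 := by
  rw [famNorm_eq hy] at h1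
  have h2 : ∑ i ∈ y.support, |y i| = 1 := by
    rw [← ENNReal.ofReal_one] at h1
    exact (ENNReal.ofReal_eq_ofReal_iff (Finset.sum_nonneg fun _ _ => abs_nonneg _)
      zero_le_one).1 h1
  refine le_antisymm ?_ ?_
  · rw [ContinuousMap.norm_le _ zero_le_one]
    intro t
    rw [Real.norm_eq_abs, abs_of_nonneg (phi_nonneg y t), phi_apply, ← h2]
    refine Finset.sum_le_sum fun i _ => ?_
    split_ifs
    · exact le_rfl
    · exact abs_nonneg _
  · refine le_trans (le_of_eq ?_) (apply_le_norm (phi y) (pt (mem_closure_of_mem hy)))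
    rw [← h2, phi_apply]
    refine Finset.sum_congr rfl fun i hi => ?_
    rw [if_pos ((pt_iff _ i).2 (Finset.mem_coe.2 hi))]

/-- For every hereditary family `F` of finite subsets of `ℕ` covering `ℕ`, property `(¬ c₀)` implies
property `(Σ)`. -/
theorem result : ∀ F : HereditaryCover, NotC0 F → SigmaProp F := by
  classical
  intro F hF x hx
  by_contra hcon
  push Not at hcon
  -- the functions on the compact space
  let φ : ℕ → C(KF F, ℝ) := fun n => phi (x n)
  have hφ : ∀ n, φ n = phi (x n) := fun _ => rfl
  have h0 : ∀ n t, 0 ≤ φ n t := fun n t => phi_nonneg _ t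
  have h1 : ∀ n, ‖φ n‖ = 1 := fun n => phi_norm (hx.support_mem n) (hx.norm_eq n)
  have hsum : ∀ t, Summable fun n => φ n t := by
    intro t
    have h2 := hcon (setOf t) (setOf_mem t)
    have h3 : ∀ n, l1Norm (setOf t) (x n) = ENNReal.ofReal (φ n t) := by
      intro n
      rw [← ofReal_phi (x n) (setOf_mem t), hφ]
      congr 2
      apply Subtype.ext
      funext i
      rw [Bool.eq_iff_iff, pt_iff]
      rfl
    simp_rw [h3] at h2
    have h4 := ENNReal.summable_toReal h2
    refine h4.congr fun n => ?_
    rw [ENNReal.toReal_ofReal (h0 n t)]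
  have hno := not_noC0 h0 h1 hsum
  unfold NoC0 at hno
  push Not at hno
  obtain ⟨c, hc0, hcs, hcn, B, hB⟩ := hno
  -- the points where the norms are attained
  have hatt : ∀ j, ∃ t : KF F, comb φ (c j) t = 1 := by
    intro j
    haveI : Nonempty (KF F) := ⟨pt (mem_closure_of_mem (empty_mem F))⟩
    obtain ⟨t, -, ht⟩ := isCompact_univ.exists_isMaxOn (f := comb φ (c j)) Set.univ_nonempty
      (comb φ (c j)).continuous.continuousOn
    refine ⟨t, le_antisymm ((apply_le_norm _ t).trans (hcn j).le) ?_⟩
    rw [← hcn j, ContinuousMap.norm_le _ (comb_nonneg h0 (hc0 j) t)]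
    intro s
    rw [Real.norm_eq_abs, abs_of_nonneg (comb_nonneg h0 (hc0 j) s)]
    exact ht (Set.mem_univ s)
  choose t ht using hatt
  -- disjointness of the supports of the `x n`
  have hlt : ∀ m n, m < n → ∀ i ∈ (x m).support, ∀ j ∈ (x n).support, i < j := by
    intro m n hmn
    induction n, hmn using Nat.le_induction with
    | base => exact hx.block m
    | succ n _ ih =>
      intro i hi j hj
      have hne : (x n).support.Nonempty := by
        rw [Finsupp.support_nonempty_iff]
        intro h
        have h2 := hx.norm_eq n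
        rw [h] at h2
        have h3 : famNorm F ((0 : ℕ →₀ ℝ) : ℕ → ℝ) = 0 := famNorm_zero F
        rw [h3] at h2
        exact zero_ne_one h2
      obtain ⟨l, hl⟩ := hne
      exact (ih i hi l hl).trans (hx.block n l hl j hj)
  have huniq : ∀ i m n, i ∈ (x m).support → i ∈ (x n).support → m = n := by
    intro i m n hm hn
    rcases lt_trichotomy m n with h | h | h
    · exact absurd (hlt m n h i hm i hn) (lt_irrefl _)
    · exact h
    · exact absurd (hlt n m h i hn i hm) (lt_irrefl _)
  -- the blocks
  let z : ℕ → ℕ →₀ ℝ := fun j => ∑ n ∈ (c j).support, c j n • x n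
  let y : ℕ → ℕ →₀ ℝ := fun j => (z j).filter (fun i => (t j).1 i = true)
  have hz : ∀ j i, z j i = ∑ n ∈ (c j).support, c j n * x n i := by
    intro j i
    change (∑ n ∈ (c j).support, c j n • x n : ℕ →₀ ℝ) i = _
    rw [Finsupp.finsetSum_apply]
    rfl
  have hzi : ∀ j n i, i ∈ (x n).support → z j i = c j n * x n i := by
    intro j n i hi
    rw [hz]
    by_cases hn : n ∈ (c j).support
    · refine Finset.sum_eq_single_of_mem n hn fun m _ hmn => ?_
      by_cases hm : i ∈ (x m).support
      · exact absurd (huniq i m n hm hi) hmn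
      · rw [Finsupp.notMem_support_iff.1 hm, mul_zero]
    · rw [Finsupp.notMem_support_iff.1 hn, zero_mul]
      refine Finset.sum_eq_zero fun m hm => ?_
      by_cases hm2 : i ∈ (x m).support
      · exact absurd hm (huniq i m n hm2 hi ▸ hn)
      · rw [Finsupp.notMem_support_iff.1 hm2, mul_zero]
  have hzs : ∀ j i, i ∈ (z j).support → ∃ n ∈ (c j).support, i ∈ (x n).support := by
    intro j i hi
    rw [Finsupp.mem_support_iff, hz] at hi
    obtain ⟨n, hn, hne⟩ := Finset.exists_ne_zero_of_sum_ne_zero hi
    exact ⟨n, hn, Finsupp.mem_support_iff.2 (right_ne_zero_of_mul hne)⟩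
  -- the `ℓ₁`-norms of restrictions of `z j`
  have hzphi : ∀ j (s : KF F), ∑ i ∈ (z j).support, (if s.1 i = true then |z j i| else 0) =
      comb φ (c j) s := by
    intro j s
    rw [comb_apply]
    have e1 : ∀ n ∈ (c j).support, c j n * φ n s =
        ∑ i ∈ (x n).support, if s.1 i = true then |z j i| else 0 := by
      intro n _
      rw [hφ, phi_apply, Finset.mul_sum]
      refine Finset.sum_congr rfl fun i hi => ?_
      rw [hzi j n i hi, abs_mul, abs_of_nonneg (hc0 j n)]
      split_ifs <;> simp
    rw [Finset.sum_congr rfl e1, ← Finset.sum_biUnion]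
    · refine Finset.sum_subset ?_ ?_
      · intro i hi
        obtain ⟨n, hn, hin⟩ := hzs j i hi
        exact Finset.mem_biUnion.2 ⟨n, hn, hin⟩
      · intro i _ hi
        rw [Finsupp.notMem_support_iff.1 hi, abs_zero]
        split_ifs <;> rfl
    · intro m _ n _ hmn
      rw [Function.onFun, Finset.disjoint_left]
      intro i hi hi'
      exact hmn (huniq i m n hi hi')
  have hysupp : ∀ j, (y j).support = (z j).support.filter (fun i => (t j).1 i = true) := fun j =>
    Finsupp.support_filter _ _
  have hymem : ∀ j, (y j).support ∈ F.sets := by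
    intro j
    refine setOf_mem (t j) _ ?_
    intro i hi
    rw [hysupp] at hi
    exact (Finset.mem_filter.1 (Finset.mem_coe.1 hi)).2
  have hyabs : ∀ j i, |y j i| ≤ |z j i| := by
    intro j i
    change |(z j).filter (fun i => (t j).1 i = true) i| ≤ _
    rw [Finsupp.filter_apply]
    split_ifs
    · exact le_rfl
    · rw [abs_zero]; exact abs_nonneg _
  have hy : IsSupportedBlock F y := by
    refine ⟨hymem, fun j => ?_, fun j i hi k hk => ?_⟩
    · rw [famNorm_eq (hymem j), ← ENNReal.ofReal_one]
      congr 1
      rw [← ht j, ← hzphi j (t j), hysupp, Finset.sum_filter]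
      refine Finset.sum_congr rfl fun i _ => ?_
      split_ifs with h
      · change |(z j).filter (fun i => (t j).1 i = true) i| = _
        rw [Finsupp.filter_apply, if_pos h]
      · rfl
    · rw [hysupp] at hi hk
      obtain ⟨m, hm, him⟩ := hzs j i (Finset.mem_filter.1 hi).1
      obtain ⟨n, hn, hkn⟩ := hzs (j + 1) k (Finset.mem_filter.1 hk).1
      exact hlt m n (hcs j m hm n hn) i him k hkn
  have htop := hF y hy
  refine absurd htop (ne_of_lt (lt_of_le_of_lt (b := ENNReal.ofReal B) ?_ ENNReal.ofReal_lt_top))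
  refine iSup₂_le fun A hA => ?_
  rw [ENNReal.tsum_eq_iSup_nat]
  refine iSup_le fun J => ?_
  have hterm : ∀ j, famNorm F (proj A (y j)) ≤ ENNReal.ofReal (comb φ (c j) (pt hA)) := by
    intro j
    refine famNorm_le F fun D _ => ENNReal.ofReal_le_ofReal ?_
    rw [← hzphi]
    calc ∑ k ∈ D, |proj A (y j) k|
        ≤ ∑ k ∈ D, (if (pt hA).1 k = true then |z j k| else 0) := by
          refine Finset.sum_le_sum fun k _ => ?_
          unfold proj
          by_cases h : k ∈ A
          · rw [Set.indicator_of_mem h, if_pos ((pt_iff hA k).2 h)]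
            exact hyabs j k
          · rw [Set.indicator_of_notMem h, if_neg (fun h' => h ((pt_iff hA k).1 h')), abs_zero]
      _ = ∑ k ∈ D.filter (· ∈ (z j).support), (if (pt hA).1 k = true then |z j k| else 0) := by
          rw [Finset.sum_filter]
          refine Finset.sum_congr rfl fun k _ => ?_
          by_cases h : k ∈ (z j).support
          · rw [if_pos h]
          · rw [if_neg h, Finsupp.notMem_support_iff.1 h, abs_zero]
            split_ifs <;> rfl
      _ ≤ _ := by
          refine Finset.sum_le_sum_of_subset_of_nonneg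
            (fun k hk => (Finset.mem_filter.1 hk).2) fun k _ _ => ?_
          split_ifs
          · exact abs_nonneg _
          · exact le_rfl
  refine (Finset.sum_le_sum fun j _ => hterm j).trans ?_
  rw [← ENNReal.ofReal_sum_of_nonneg fun j _ => comb_nonneg h0 (hc0 j) _]
  exact ENNReal.ofReal_le_ofReal (hB (pt hA) J)

end Pool.Agent.Results.MP_441f99_an.NoC0ImpliesSigma
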